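import Pool.Agent.MP_3ee8cb_gt.CZO.Meas
import Pool.Agent.MP_3ee8cb_gt.CZO.Int

/-! The equality case holds almost everywhere. -/

namespace Pool.Agent.MP_3ee8cb_gt.CZO

open Set MeasureTheory Filter Topology D3 D3.SI D3NP
open D3OD (M)

noncomputable section

/-- The truncated Jacobian. -/
def y3 (F : ℝ → ℝ → ℝ) (t : ℝ) : ℝ := min (F 0 t) 3

/-- The truncated defect. -/
def p1 (a : ℝ) (F : ℝ → ℝ → ℝ) (t : ℝ) : ℝ :=
  max 0 (min (pn3 (F (a / 2) t) (F (-(a / 2)) t) (F 0 t)) 1)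

/-- The determinants of a system. -/
def dd (A A' : ℝ → ℝ → M) (s c t : ℝ) : ℝ := |(A' s t + c • A s t).det|

variable {a : ℝ} {kN : ℝ → M} {A A' : ℝ → ℝ → M}

theorem dd0 (s t : ℝ) : dd A A' s 0 t = |(A' s t).det| := by rw [dd, zero_smul, add_zero]

theorem p1_abs (F : ℝ → ℝ → ℝ) (t : ℝ) : 0 ≤ p1 a F t ∧ p1 a F t ≤ 1 :=
  ⟨le_max_left _ _, max_le zero_le_one (min_le_right _ _)⟩

theorem Sys.cd (S : Sys a kN A A') (c : ℝ) : Continuous fun p : ℝ × ℝ => dd A A' p.1 c p.2 :=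
  (S.cA'.add (S.cA.const_smul c)).matrix_det.abs

theorem Sys.cy (S : Sys a kN A A') : Continuous fun p : ℝ × ℝ => y3 (dd A A' p.1) p.2 :=
  (S.cd 0).min continuous_const

theorem Sys.cp (S : Sys a kN A A') (ha : 0 < a) :
    Continuous fun p : ℝ × ℝ => p1 a (dd A A' p.1) p.2 :=
  continuous_const.max ((((continuous_const.div ((S.cd _).mul (S.cd _)).sqrt fun p => by
    have h := rAL3 D3OD.rEIG a _ _ ha (S.good p.1 p.2)
    exact (Real.sqrt_pos.2 (mul_pos (abs_pos.2 h.1) (abs_pos.2 h.2.1))).ne').sub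
      continuous_const).add (continuous_const.mul S.cy)).min continuous_const)

theorem Sys.p3 (S : Sys a kN A A') (ha : 0 < a) (s t : ℝ) :
    p1 a (dd A A' s) t ≤ pn3 (dd A A' s (a / 2) t) (dd A A' s (-(a / 2)) t) |(A' s t).det| ∧
    (3 ≤ |(A' s t).det| → p1 a (dd A A' s) t = 1) ∧
    (p1 a (dd A A' s) t ≤ 0 → A s t = 0 ∧ |(A' s t).det| = 1) := by
  obtain ⟨-, -, h3, h4⟩ := rAL3 D3OD.rEIG a _ _ ha (S.good s t)
  rw [p1, dd0]
  change 0 ≤ pn (dd A A' s (a / 2) t) (dd A A' s (-(a / 2)) t) _ at h3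
  change pn (dd A A' s (a / 2) t) (dd A A' s (-(a / 2)) t) _ = 0 → _ at h4
  have h0 : 0 ≤ 2 / √(dd A A' s (a / 2) t * dd A A' s (-(a / 2)) t) := by positivity
  have h1 : 3 ≤ |(A' s t).det| →
      1 ≤ pn3 (dd A A' s (a / 2) t) (dd A A' s (-(a / 2)) t) |(A' s t).det| := fun h => by
    rw [pn3, min_eq_right h]
    linarith
  rcases le_total |(A' s t).det| 3 with h | h
  · have e : ∀ u v, pn3 u v |(A' s t).det| = pn u v |(A' s t).det| := fun u v => by
      rw [pn3, min_eq_left h, pn]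
    refine ⟨max_le (h3.trans_eq (e _ _).symm) (min_le_left _ _),
      fun h => by rw [min_eq_right (h1 h), max_eq_right zero_le_one], fun h => h4 ?_⟩
    rw [e] at h
    exact le_antisymm ((min_le_iff.1 ((le_max_right _ _).trans h)).resolve_right (by norm_num)) h3
  · rw [min_eq_right (h1 h), max_eq_right zero_le_one]
    exact ⟨h1 h, fun _ => rfl, fun h => absurd h (by norm_num)⟩

theorem Sys.orb2 (S : Sys a kN A A') (ha : 0 < a) (n : ℕ) (T : ℝ) (hT : 0 ≤ T) :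
    -(8 / a + 4 * n) ≤ ∫ s in (0 : ℝ)..T, (2 * ((In n fun t => y3 (dd A A' s) (t + s)) - 1) -
      In n fun t => p1 a (dd A A' s) (t + s)) := by
  obtain ⟨c1, h1⟩ := In_orb (F := fun s => y3 (dd A A' s)) S.cy
    (fun s t => le_min (abs_nonneg _) zero_le_three) n
  obtain ⟨c2, h2⟩ := In_orb (F := fun s => p1 a (dd A A' s)) (S.cp ha)
    (fun s t => (p1_abs _ _).1) n
  refine S.orb ha n _ _ n.cast_nonneg c1 c2 (fun s => ?_)
    (fun s t ht => ((h2 s).2 t ht).trans (S.p3 ha s t).1) T hT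
  simpa only [y3, dd0] using (h1 s).1

theorem Sys.att (S : Sys a kN A A') (ha : 0 < a) (h : Iq (p1 a (dd A A' 0)) = 0) :
    ∃ τ, A 0 τ = 0 ∧ |(A' 0 τ).det| = 1 := by
  obtain ⟨T, T0, hT⟩ := S.big ha 0
  obtain ⟨τ, -, h1⟩ := isCompact_Icc.exists_isMinOn (nonempty_Icc.2 (neg_le_self T0))
    (Continuous.uncurry_left (f := fun s => p1 a (dd A A' s)) 0 (S.cp ha)).continuousOn
  refine ⟨τ, (S.p3 ha 0 τ).2.2 (le_of_le_of_eq (le_ciInf fun r => ?_) h)⟩
  rcases le_total T |(r : ℝ) - 0| with h2 | h2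
  · rw [(S.p3 ha 0 r).2.1 (hT r h2)]
    exact (p1_abs _ _).2
  · exact h1 (abs_le.1 (sub_zero (r : ℝ) ▸ h2))

variable {m m' : MF} {φ : V × V → V × V} {z : V × V}

theorem link2 (o : m.OK) (j : m.Jac) (o' : m'.OK) (j' : m'.Jac) (cf : C0F m m' φ) (ha : 0 < a)
    (u' : m'.Up (a ^ 2)) (g : Gd m m' φ a z) : ∃ kN A A', Sys a kN A A' ∧
      (∀ s, Dm m' φ (m.Z s z) = fun c t => dd A A' s c (t + s)) ∧ Dm m' φ z = dd A A' 0 ∧
      ∀ t, A 0 t = 0 → At m' (fr φ z.1) t z.2 = 0 := by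
  obtain ⟨kN, A, A', S, h, -⟩ := link o j o' j' cf ha u' g
  have e : ∀ s, Dm m' φ (m.Z s z) = fun c t => dd A A' s c (t + s) := fun s => by
    funext c t
    have G := g.flow o j o' j' cf s
    rw [Dm_eq G.ne G.dif, dd, ← (h s _).1 c, add_sub_cancel_right]
  refine ⟨kN, A, A', S, e, ?_, fun t h0 => ?_⟩
  · simpa only [o.zero, add_zero] using e 0
  · simpa only [o.zero, sub_zero] using (h 0 t).2 h0

theorem sODE : SODE := by
  intro m m' φ Γ Λ _ _ _ _ ρ O O' a o j o' j' cf A A' he fd ha u' hg hw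
  have L := fun z => link2 (z := z) o j o' j' cf ha u'
  have y0 : ∀ z t, 0 ≤ y3 (Dm m' φ z) t := fun z t => le_min (abs_nonneg _) zero_le_three
  have y1 : ∀ z t, y3 (Dm m' φ z) t ≤ 3 := fun z t => min_le_right _ _
  have my : ∀ t, Measurable fun z => y3 (Dm m' φ z) t := fun t =>
    (m_Dm o' cf 0 t).min measurable_const
  have mp : ∀ t, Measurable fun z => p1 a (Dm m' φ z) t := fun t =>
    measurable_const.max ((((measurable_const.div ((m_Dm o' cf _ t).mul (m_Dm o' cf _ t)).sqrt).sub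
      measurable_const).add (measurable_const.mul (my t))).min measurable_const)
  have mG : Measurable fun z => Iq (y3 (Dm m' φ z)) := .iInf fun _ => my _
  have bG := fun z => Iq_abs (y0 z) (y1 z)
  have bq := fun z => Iq_abs (fun t => (p1_abs (a := a) (Dm m' φ z) t).1) fun t => (p1_abs _ t).2
  have le : ∀ z, Gd m m' φ a z → ∀ t, Iq (y3 (Dm m' φ z)) ≤ Dt m' (fr φ z.1) 0 t z.2 :=
    fun z g t => by
      obtain ⟨_, B, B', S, -, e, -⟩ := L z g
      refine (Iq_le ?_ (y0 z) t).trans ((min_le_left _ _).trans_eq (Dm_eq g.ne g.dif 0 t))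
      rw [e]
      exact Continuous.uncurry_left (f := fun s => y3 (dd B B' s)) 0 S.cy
  have att : ∀ z, Gd m m' φ a z → Iq (p1 a (Dm m' φ z)) = 0 →
      ∃ τ, At m' (fr φ z.1) τ z.2 = 0 ∧ Dt m' (fr φ z.1) 0 τ z.2 = 1 := fun z g h => by
    obtain ⟨_, B, B', S, -, e, k⟩ := L z g
    obtain ⟨τ, h1, h2⟩ := S.att ha (by rwa [e] at h)
    exact ⟨τ, k τ h1, by rw [← Dm_eq g.ne g.dif, e, dd0, h2]⟩
  refine (avg_ae o j A fd (P := Gd m m' φ a) (K := fun n => 8 / a + 4 * n) (C := 5)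
    (H := fun n z => 2 * (In n (y3 (Dm m' φ z)) - 1) - In n (p1 a (Dm m' φ z)))
    (G := fun z => Iq (y3 (Dm m' φ z)) - 1) (q := fun z => Iq (p1 a (Dm m' φ z))) hg
    (fun n => (((Measurable.iInf fun _ => my _).sub_const 1).const_mul 2).sub (.iInf fun _ => mp _))
    (mG.sub_const 1) (.iInf fun _ => mp _) (fun n z => ?_)
    (fun z => abs_le.2 ⟨by linarith [bG z], by linarith [bG z]⟩)
    (fun z => abs_le.2 ⟨by linarith [bq z], by linarith [bq z]⟩) (fun z => (bq z).1)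
    (fun n γ z hz => by rw [Dm_inv o' A A' he γ fun e => by simp [e] at hz])
    (fun n => by positivity) (fun n z g T hT => ?_)
    (fun z => (((In_lim (y0 z)).sub_const 1).const_mul 2).sub (In_lim fun t => (p1_abs _ t).1))
    ?_ fun z g h => ?_).mono fun x hx => hx.mono fun b hb => ⟨hb.1, ?_⟩
  · have h1 : 0 ≤ In n (y3 (Dm m' φ z)) ∧ In n (y3 (Dm m' φ z)) ≤ 3 :=
      Iq_abs (fun _ => y0 z _) fun _ => y1 z _
    have h2 : 0 ≤ In n (p1 a (Dm m' φ z)) ∧ In n (p1 a (Dm m' φ z)) ≤ 1 :=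
      Iq_abs (fun _ => (p1_abs _ _).1) fun _ => (p1_abs _ _).2
    exact abs_le.2 ⟨by linarith, by linarith⟩
  · obtain ⟨_, B, B', S, e, -⟩ := L z g
    simp only [e]
    exact S.orb2 ha n T hT
  · filter_upwards [hw, ae_tr (hg.mono fun z h _ => h)] with x h1 h2
    obtain ⟨N, n1, n2, n3⟩ := exists_measurable_superset_of_null (ae_iff.1 h2)
    have mx : Measurable fun b => Iq (y3 (Dm m' φ (x, b))) := mG.comp measurable_prodMk_left
    have k := h1 ((Subtype.val '' Nᶜ).indicator fun b => .ofReal (Iq (y3 (Dm m' φ (x, b)))))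
      (mx.ennreal_ofReal.indicator ((MeasurableEmbedding.subtype_coe
        Metric.isClosed_sphere.measurableSet).measurableSet_image.2 n2.compl)) fun b _ hb => by
      obtain ⟨b, h3, rfl⟩ := mem_of_indicator_ne_zero hb
      have g : Gd m m' φ a (x, b) := of_not_not fun h => h3 (n1 h)
      exact ⟨g, fun t => (indicator_le_self _ _ _).trans (ENNReal.ofReal_le_ofReal (le _ g t))⟩
    have i1 : Integrable (fun b : Metric.sphere (0 : V) 1 => Iq (y3 (Dm m' φ (x, b))))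
        (volume : Measure V).toSphere :=
      .of_bound (mx.comp measurable_subtype_coe).aestronglyMeasurable 3
        (.of_forall fun b => abs_le.2 ⟨by linarith [bG (x, b)], (bG _).2⟩)
    rw [sph, integral_sub i1 (integrable_const 1), integral_const, smul_eq_mul, mul_one,
      sub_nonpos, Measure.real, ← ENNReal.ofReal_le_iff_le_toReal (measure_ne_top _ _),
      ofReal_integral_eq_lintegral_ofReal i1 (.of_forall fun b => (bG _).1)]
    refine le_of_eq_of_le (lintegral_congr_ae ?_) k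
    filter_upwards [compl_mem_ae_iff.2 n3] with b hb
    rw [indicator_of_mem (mem_image_of_mem _ hb)]
  · obtain ⟨τ, -, h2⟩ := att z g h
    exact sub_nonpos.2 ((le z g τ).trans_eq h2)
  · obtain ⟨τ, h1, h2⟩ := att _ hb.1 hb.2.1
    exact ⟨τ, h1, h2, fun t => (sub_eq_zero.1 hb.2.2).ge.trans (le _ hb.1 t)⟩

end

end Pool.Agent.MP_3ee8cb_gt.CZO
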