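import Pool.Agent.MP_3ee8cb_gt.CZO.Orb
import Pool.Agent.MP_3ee8cb_gt.D3OD.LinkA

/-! The focal times are finite and the Jacobian grows. -/

namespace Pool.Agent.MP_3ee8cb_gt.CZO

open Matrix Set D3OD D3NP

theorem pd {Q : M} (h : ∀ e : V, e ≠ 0 → 0 < e ⬝ᵥ Q *ᵥ e) :
    ∃ δ, 0 < δ ∧ ∀ e : V, δ * (e ⬝ᵥ e) ≤ e ⬝ᵥ Q *ᵥ e := by
  have e0 : ∀ x y : ℝ, ![x, y] ⬝ᵥ Q *ᵥ ![x, y] =
      Q 0 0 * x ^ 2 + (Q 0 1 + Q 1 0) * x * y + Q 1 1 * y ^ 2 := fun x y => by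
    simp [mulVec, dotProduct, Fin.sum_univ_two]
    ring
  have h1 := h ![1, 0] (by simp)
  have h2 := h ![0, 1] (by simp)
  have h3 := h ![-(Q 0 1 + Q 1 0) / 2, Q 0 0] fun e => by
    have := congrFun e 1
    rw [e0] at h1
    simp at this h1
    linarith
  rw [e0] at h1 h2 h3
  generalize Q 0 0 = p at *
  generalize Q 1 1 = q at *
  generalize Q 0 1 + Q 1 0 = r at *
  have p0 : 0 < p := by linarith
  have q0 : 0 < q := by linarith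
  have d0 : 0 < p * q - r ^ 2 / 4 := (mul_pos_iff_of_pos_left p0).1 (by linarith)
  refine ⟨(p * q - r ^ 2 / 4) / (p + q), by positivity, fun e => ?_⟩
  have := e0 (e 0) (e 1)
  rw [show ![e 0, e 1] = e from funext fun i => by fin_cases i <;> rfl] at this
  rw [this, div_mul_eq_mul_div, div_le_iff₀ (by positivity), dotProduct, Fin.sum_univ_two]
  nlinarith [sq_nonneg (p * e 0 + r / 2 * e 1), sq_nonneg (r / 2 * e 0 + q * e 1)]

theorem qb (Q : M) : ∃ C, ∀ e : V, |e ⬝ᵥ Q *ᵥ e| ≤ C * (e ⬝ᵥ e) := by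
  refine ⟨|Q 0 0| + |Q 0 1 + Q 1 0| + |Q 1 1|, fun e => ?_⟩
  simp only [mulVec, dotProduct, Fin.sum_univ_two]
  have h1 := abs_le.1 (le_refl |Q 0 0|)
  have h2 := abs_le.1 (le_refl |Q 1 1|)
  have h3 := abs_le.1 (le_refl |Q 0 1 + Q 1 0|)
  generalize |Q 0 0| = p at *
  generalize |Q 1 1| = q at *
  generalize |Q 0 1 + Q 1 0| = r at *
  have x2 := mul_self_nonneg (e 0)
  have y2 := mul_self_nonneg (e 1)
  rw [abs_le]
  constructor <;> nlinarith [mul_nonneg (sub_nonneg.2 h3.1) (sq_nonneg (e 0 + e 1)),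
    mul_nonneg (sub_nonneg.2 h3.2) (sq_nonneg (e 0 - e 1)),
    mul_nonneg (sub_nonneg.2 h3.1) (sq_nonneg (e 0 - e 1)),
    mul_nonneg (sub_nonneg.2 h3.2) (sq_nonneg (e 0 + e 1)),
    mul_nonneg (sub_nonneg.2 h1.1) x2, mul_nonneg (sub_nonneg.2 h1.2) x2,
    mul_nonneg (sub_nonneg.2 h2.1) y2, mul_nonneg (sub_nonneg.2 h2.2) y2,
    mul_nonneg (h1.1.trans h1.2 |> fun h => (by linarith : 0 ≤ p)) y2,
    mul_nonneg (h2.1.trans h2.2 |> fun h => (by linarith : 0 ≤ q)) x2]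

theorem det_ge {Z : M} {l : ℝ} (hl : 0 ≤ l) (h : ∀ e : V, l * (e ⬝ᵥ e) ≤ Z *ᵥ e ⬝ᵥ Z *ᵥ e) :
    l ≤ |Z.det| := by
  have e0 : ∀ x y : ℝ, l * (x * x + y * y) ≤
      (Z 0 0 * x + Z 0 1 * y) ^ 2 + (Z 1 0 * x + Z 1 1 * y) ^ 2 := fun x y => by
    have := h ![x, y]
    simp [mulVec, dotProduct, Fin.sum_univ_two] at this
    linarith
  rw [det_fin_two]
  refine Real.le_sqrt_of_sq_le ?_ |>.trans_eq (Real.sqrt_sq_eq_abs _)
  have h1 := e0 1 0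
  have h2 := e0 0 1
  generalize Z 0 0 = p at *
  generalize Z 0 1 = q at *
  generalize Z 1 0 = r at *
  generalize Z 1 1 = u at *
  have h3 : discrim (p ^ 2 + r ^ 2 - l) (2 * (p * q + r * u)) (q ^ 2 + u ^ 2 - l) ≤ 0 :=
    discrim_le_zero fun x => by linarith [e0 x 1]
  rw [discrim] at h3
  nlinarith [mul_nonneg hl (sub_nonneg.2 h1), mul_nonneg hl (sub_nonneg.2 h2)]

theorem dq {x y : ℝ → V} {x' y' : V} {B : ℝ → M} {X : M} {t : ℝ} (hx : HasDerivAt x x' t)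
    (hy : HasDerivAt y y' t) (hB : MD B X t) : HasDerivAt (fun r => x r ⬝ᵥ B r *ᵥ y r)
      (x' ⬝ᵥ B t *ᵥ y t + x t ⬝ᵥ X *ᵥ y t + x t ⬝ᵥ B t *ᵥ y') t := by
  have h1 := hasDerivAt_pi.1 hx
  have h2 := hasDerivAt_pi.1 hy
  simp only [mulVec, dotProduct, Fin.sum_univ_two]
  refine (((h1 0).mul (((hB 0 0).mul (h2 0)).add ((hB 0 1).mul (h2 1)))).add
    ((h1 1).mul (((hB 1 0).mul (h2 0)).add ((hB 1 1).mul (h2 1))))).congr_deriv ?_
  simp only [Pi.add_apply, Pi.mul_apply]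
  ring

variable {a : ℝ} {kN : ℝ → M} {A A' : ℝ → ℝ → M}

theorem Sys.bm (O : Sys a kN A A') (ha : 0 < a) (s t : ℝ) :
    (Bm (A s t) (A' s t))ᵀ = Bm (A s t) (A' s t) ∧
    (∀ x : V, a * |x ⬝ᵥ Bm (A s t) (A' s t) *ᵥ x| ≤ x ⬝ᵥ x) ∧
    ∀ e, Bm (A s t) (A' s t) *ᵥ A' s t *ᵥ e = A s t *ᵥ e := by
  have e : Bm (a • A s t) (A' s t) = a • Bm (A s t) (A' s t) := Matrix.smul_mul _ _ _
  have h1 := (O.good s t).symm
  rw [e, transpose_smul] at h1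
  refine ⟨smul_right_injective _ ha.ne' h1, fun x => ?_, fun x => ?_⟩
  · by_cases hx : x = 0
    · simp [hx]
    · have := (O.good s t).lt x hx
      rw [e, smul_mulVec, dotProduct_smul, smul_eq_mul, abs_mul, abs_of_pos ha] at this
      exact this.le
  · rw [mulVec_mulVec, Bm, nonsing_inv_mul_cancel_right _ _ (Ne.isUnit (O.good s t).det)]

theorem Sys.mono (O : Sys a kN A A') (ha : 0 < a) (s r : ℝ) (e : V) : Monotone fun t =>
    A s t *ᵥ e ⬝ᵥ A' s t *ᵥ e - A' s t *ᵥ e ⬝ᵥ Bm (A r t) (A' r t) *ᵥ A' s t *ᵥ e := by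
  refine monotone_of_hasDerivAt_nonneg (fun t => ((rOM kN O.cN.symm _ _ _ _ (O.sol s e)
    (O.sol s e)).2.2 t).sub (dq ((O.sol s e).d2 t) ((O.sol s e).d2 t) (O.dt r t).1)) fun t => ?_
  have h1 := (O.bm ha r t).1
  have h2 := O.cN.symm t
  have h3 := (mul_nonneg (sq_nonneg a) (dot_nonneg _)).trans
    (O.cN.low t (A s t *ᵥ e - Bm (A r t) (A' r t) *ᵥ A' s t *ᵥ e))
  generalize Bm (A r t) (A' r t) = B at *
  generalize kN t = k at *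
  generalize A s t *ᵥ e = x at *
  generalize A' s t *ᵥ e = y at *
  have b1 : B 1 0 = B 0 1 := congrFun (congrFun h1 0) 1
  have b2 : k 1 0 = k 0 1 := congrFun (congrFun h2 0) 1
  refine h3.trans_eq ?_
  simp [mulVec, dotProduct, Fin.sum_univ_two, Matrix.mul_apply, b1, b2]
  ring

theorem Sys.anti (O : Sys a kN A A') (t : ℝ) {x : V} (hx : x ≠ 0) :
    StrictAnti fun r => x ⬝ᵥ Bm (A r t) (A' r t) *ᵥ x := by
  refine strictAnti_of_hasDerivAt_neg (fun r => dq (hasDerivAt_const r x) (hasDerivAt_const r x)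
    (O.ds r t)) fun r => ?_
  have h1 : (A' r t)⁻¹ *ᵥ x ≠ 0 := fun e => hx (by
    have := congrArg (A' r t *ᵥ ·) e
    simpa only [mulVec_mulVec, mul_nonsing_inv _ (Ne.isUnit (O.good r t).det), one_mulVec,
      mulVec_zero] using this)
  have h2 := (dot_nonneg ((A' r t)⁻¹ *ᵥ x)).lt_of_ne' (mt dotProduct_self_eq_zero.1 h1)
  rw [zero_dotProduct, mulVec_zero, dotProduct_zero, zero_add, add_zero, neg_mulVec, dotProduct_neg,
    Wm, ← mulVec_mulVec, mulVec_transpose, dotProduct_comm, ← dotProduct_mulVec]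
  exact neg_neg_of_pos h2

theorem Sys.grow (O : Sys a kN A A') (ha : 0 < a) (s : ℝ) : ∃ δ C, 0 < δ ∧ ∀ t e,
    (s ≤ t → (δ * (t - s) - C) * (e ⬝ᵥ e) ≤ A s t *ᵥ e ⬝ᵥ A' s t *ᵥ e) ∧
    (t ≤ s → A s t *ᵥ e ⬝ᵥ A' s t *ᵥ e ≤ -((δ * (s - t) - C) * (e ⬝ᵥ e))) := by
  have n0 : ∀ e : V, e ≠ 0 → A' s s *ᵥ e ≠ 0 := fun e he h =>
    (O.good s s).det (exists_mulVec_eq_zero_iff.1 ⟨e, he, h⟩)
  have tq : ∀ (B : M) (e : V), e ⬝ᵥ ((A' s s)ᵀ * B * A' s s) *ᵥ e =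
      A' s s *ᵥ e ⬝ᵥ B *ᵥ A' s s *ᵥ e := fun B e => by
    rw [← mulVec_mulVec, ← mulVec_mulVec, mulVec_transpose, dotProduct_comm, ← dotProduct_mulVec,
      dotProduct_comm]
  obtain ⟨δ, d0, h1⟩ := pd (Q := (A' s s)ᵀ * (Bm (A s s) (A' s s) - Bm (A (s + 1) s)
    (A' (s + 1) s)) * A' s s) fun e he => by
      rw [tq, sub_mulVec, dotProduct_sub]
      exact sub_pos.2 (O.anti s (n0 e he) (lt_add_one s))
  obtain ⟨ε, e0, h2⟩ := pd (Q := (A' s s)ᵀ * (Bm (A (s - 1) s) (A' (s - 1) s) -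
    Bm (A s s) (A' s s)) * A' s s) fun e he => by
      rw [tq, sub_mulVec, dotProduct_sub]
      exact sub_pos.2 (O.anti s (n0 e he) (sub_one_lt s))
  obtain ⟨C, h3⟩ := qb ((A' s s)ᵀ * Bm (A s s) (A' s s) * A' s s)
  refine ⟨a / 2 * min δ ε, C, by positivity, fun t e => ?_⟩
  have k1 := h1 e
  have k2 := h2 e
  have k3 := abs_le.1 (h3 e)
  rw [tq, sub_mulVec, dotProduct_sub, (O.bm ha s s).2.2, dotProduct_comm (A' s s *ᵥ e)] at k1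
  rw [tq, sub_mulVec, dotProduct_sub, (O.bm ha s s).2.2,
    dotProduct_comm (A' s s *ᵥ e) (A s s *ᵥ e)] at k2
  rw [tq, (O.bm ha s s).2.2, dotProduct_comm (A' s s *ᵥ e)] at k3
  have m1 := mul_le_mul_of_nonneg_right (min_le_left δ ε) (dot_nonneg e)
  have m2 := mul_le_mul_of_nonneg_right (min_le_right δ ε) (dot_nonneg e)
  have du := fun u => ((rOM kN O.cN.symm _ _ _ _ (O.sol s e) (O.sol s e)).2.2 u).sub
    ((hasDerivAt_id u).const_mul (a / 2 * min δ ε * (e ⬝ᵥ e)))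
  have bd : ∀ r u, a / 2 * |A s u *ᵥ e ⬝ᵥ A' s u *ᵥ e -
      A' s u *ᵥ e ⬝ᵥ Bm (A r u) (A' r u) *ᵥ A' s u *ᵥ e| ≤
      A' s u *ᵥ e ⬝ᵥ A' s u *ᵥ e + A s u *ᵥ e ⬝ᵥ kN u *ᵥ A s u *ᵥ e := fun r u => by
    have b1 := (O.bm ha s u).2.1 (A' s u *ᵥ e)
    have b2 := (O.bm ha r u).2.1 (A' s u *ᵥ e)
    have b3 := (mul_nonneg (sq_nonneg a) (dot_nonneg _)).trans (O.cN.low u (A s u *ᵥ e))
    rw [(O.bm ha s u).2.2, dotProduct_comm] at b1
    have b4 := mul_le_mul_of_nonneg_left (abs_sub (A s u *ᵥ e ⬝ᵥ A' s u *ᵥ e)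
      (A' s u *ᵥ e ⬝ᵥ Bm (A r u) (A' r u) *ᵥ A' s u *ᵥ e)) ha.le
    linarith
  have mo : ∀ D : Set ℝ, Convex ℝ D → (∀ u ∈ D, ∃ r, min δ ε * (e ⬝ᵥ e) ≤
      |A s u *ᵥ e ⬝ᵥ A' s u *ᵥ e - A' s u *ᵥ e ⬝ᵥ Bm (A r u) (A' r u) *ᵥ A' s u *ᵥ e|) →
      MonotoneOn (fun u => A s u *ᵥ e ⬝ᵥ A' s u *ᵥ e - a / 2 * min δ ε * (e ⬝ᵥ e) * u) D :=
    fun D hD h => monotoneOn_of_hasDerivWithinAt_nonneg hD
      (fun u _ => (du u).continuousAt.continuousWithinAt) (fun u _ => (du u).hasDerivWithinAt)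
      fun u hu => by
        obtain ⟨r, hr⟩ := h u (interior_subset hu)
        have := bd r u
        have := mul_le_mul_of_nonneg_left hr (half_pos ha).le
        linarith
  refine ⟨fun h => ?_, fun h => ?_⟩
  · have := mo (Ici s) (convex_Ici s) (fun u hu => ⟨s + 1, le_trans (by
      have := O.mono ha s (s + 1) e (mem_Ici.1 hu)
      linarith) (le_abs_self _)⟩) self_mem_Ici h h
    linarith
  · have := mo (Iic s) (convex_Iic s) (fun u hu => ⟨s - 1, le_trans (by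
      have := O.mono ha s (s - 1) e (mem_Iic.1 hu)
      linarith) (neg_le_abs _)⟩) h self_mem_Iic h
    linarith

theorem Sys.big (O : Sys a kN A A') (ha : 0 < a) (s : ℝ) :
    ∃ T, 0 ≤ T ∧ ∀ t, T ≤ |t - s| → 3 ≤ |(A' s t).det| := by
  obtain ⟨δ, C, d0, h⟩ := O.grow ha s
  refine ⟨|(3 / a + C) / δ|, abs_nonneg _, fun t ht => det_ge (by norm_num) fun e => ?_⟩
  have b1 := (O.bm ha s t).2.1 (A' s t *ᵥ e)
  rw [(O.bm ha s t).2.2, dotProduct_comm] at b1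
  have b2 := (div_le_iff₀' d0).1 ((le_abs_self _).trans ht)
  have b3 : (δ * |t - s| - C) * (e ⬝ᵥ e) ≤ |A s t *ᵥ e ⬝ᵥ A' s t *ᵥ e| := by
    rcases le_total s t with h1 | h1
    · rw [abs_of_nonneg (sub_nonneg.2 h1)]
      exact ((h t e).1 h1).trans (le_abs_self _)
    · rw [abs_sub_comm, abs_of_nonneg (sub_nonneg.2 h1)]
      exact (le_neg.1 ((h t e).2 h1)).trans (neg_le_abs _)
  have b4 := mul_le_mul_of_nonneg_right (show 3 / a ≤ δ * |t - s| - C by linarith) (dot_nonneg e)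
  have b5 := mul_le_mul_of_nonneg_left (b4.trans b3) ha.le
  rw [← mul_assoc, mul_div_cancel₀ _ ha.ne'] at b5
  exact b5.trans b1

end Pool.Agent.MP_3ee8cb_gt.CZO
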