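import Pool.Agent.MP_3ee8cb_gt.CZO.Spec
import Pool.Agent.MP_3ee8cb_gt.CZO.Grow
import Pool.Agent.MP_3ee8cb_gt.D3NP.RLK2
import Pool.Agent.MP_3ee8cb_gt.D3OD.DiaG

/-! Good vectors and the equation in the plane. -/

namespace Pool.Agent.MP_3ee8cb_gt.CZO

open Matrix Filter Topology D3 D3.LK D3NP
open D3OD (OB co pv mat Sol Good co_pv pv_perp pv_co inner_co mat_mulVec)
open scoped RealInnerProductSpace

noncomputable section

variable {m m' : MF} {z y : V × V} {β β' : ℝ → OB} {φ : V × V → V × V} {a : ℝ}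

theorem nb (hz : z.2 ≠ 0) : {w : V × V | w.2 ≠ 0} ∈ 𝓝 z := SC.isOpen_U.mem_nhds hz

theorem Z_ne (j : m.Jac) (hz : z.2 ≠ 0) (t : ℝ) : (m.Z t z).2 ≠ 0 :=
  norm_ne_zero_iff.1 (j.norm t z ▸ norm_ne_zero_iff.2 hz)

theorem dZ_add (o : m.OK) (z ξ : V × V) (s r : ℝ) :
    fderiv ℝ (m.Z r) (m.Z s z) (fderiv ℝ (m.Z s) z ξ) = fderiv ℝ (m.Z (r + s)) z ξ := by
  rw [show m.Z (r + s) = m.Z r ∘ m.Z s from funext (o.add r s),
    fderiv_comp z (Dia.dZ o r _) (Dia.dZ o s _)]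
  rfl

theorem J_add (o : m.OK) (z ξ : V × V) (s r : ℝ) :
    m.J (m.Z s z) (fderiv ℝ (m.Z s) z ξ) r = m.J z ξ (r + s) ∧
    m.J' (m.Z s z) (fderiv ℝ (m.Z s) z ξ) r = m.J' z ξ (r + s) := by
  simp only [MF.J, MF.J', dZ_add o, o.add, and_self]

theorem dZ_sur (o : m.OK) (z η : V × V) (s : ℝ) : ∃ ξ, fderiv ℝ (m.Z s) z ξ = η := by
  have := dZ_add o (m.Z s z) η (-s) s
  rw [← o.add, neg_add_cancel, o.zero, add_neg_cancel, Z0 o] at this
  exact ⟨_, this⟩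

theorem dZ_ne (o : m.OK) {ξ : V × V} (h : ξ ≠ 0) (s : ℝ) : fderiv ℝ (m.Z s) z ξ ≠ 0 := fun e => by
  have := dZ_add o z ξ s (-s)
  rw [e, map_zero, neg_add_cancel, Z0 o] at this
  exact h this.symm

theorem dif_fl (o : m.OK) (j : m.Jac) (o' : m'.OK) (cf : C0F m m' φ) (hz : z.2 ≠ 0)
    (hd : DifferentiableAt ℝ φ z) (s : ℝ) : DifferentiableAt ℝ φ (m.Z s z) := by
  have e : m.Z (-s) (m.Z s z) = z := by rw [← o.add, neg_add_cancel, o.zero]
  refine ((Dia.dZ o' s _).comp _ (DifferentiableAt.comp (g := φ) (m.Z s z) (e.symm ▸ hd)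
    (Dia.dZ o (-s) _))).congr_of_eventuallyEq ?_
  filter_upwards [nb (Z_ne j hz s)] with w hw
  rw [Function.comp_apply, Function.comp_apply, ← cf.flow s _ (Z_ne j hw _), ← o.add,
    add_neg_cancel, o.zero]

theorem chain (o : m.OK) (j : m.Jac) (o' : m'.OK) (cf : C0F m m' φ) (hz : z.2 ≠ 0)
    (hd : DifferentiableAt ℝ φ z) (t : ℝ) (ξ : V × V) :
    fderiv ℝ φ (m.Z t z) (fderiv ℝ (m.Z t) z ξ) = fderiv ℝ (m'.Z t) (φ z) (fderiv ℝ φ z ξ) := by
  have d1 := (dif_fl o j o' cf hz hd t).hasFDerivAt.comp z (Dia.dZ o t z).hasFDerivAt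
  have d2 := ((Dia.dZ o' t (φ z)).hasFDerivAt.comp z hd.hasFDerivAt).congr_of_eventuallyEq
    (f₁ := φ ∘ m.Z t) (by filter_upwards [nb hz] with w hw using cf.flow t w hw)
  exact DFunLike.congr_fun (d1.unique d2) ξ

theorem ver_phi (o : m.OK) (o' : m'.OK) (cf : C0F m m' φ) (hz : z.2 ≠ 0)
    (hd : DifferentiableAt ℝ φ z) (ξ : V × V) :
    ⟪(φ z).2, m'.ver (φ z) (fderiv ℝ φ z ξ)⟫ = ⟪z.2, m.ver z ξ⟫ := by
  have d1 := (hd.hasFDerivAt.snd).norm_sq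
  have d2 := ((hasFDerivAt_snd (𝕜 := ℝ) (p := z)).norm_sq).congr_of_eventuallyEq
    (f₁ := fun w => ‖(φ w).2‖ ^ 2) (by
      filter_upwards [nb hz] with w hw using by rw [cf.norm w hw])
  have e := DFunLike.congr_fun (d1.unique d2) ξ
  rw [ver_inner o, ver_inner o']
  simpa using e

theorem radial (cf : C0F m m' φ) (hz : z.2 ≠ 0) (hd : DifferentiableAt ℝ φ z) :
    fderiv ℝ φ z (0, z.2) = (0, (φ z).2) := by
  have d0 : ∀ w : V × V, HasDerivAt (fun r : ℝ => (w.1, r • w.2)) (0, w.2) 1 := fun w => by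
    simpa using (hasDerivAt_const (1 : ℝ) w.1).prodMk ((hasDerivAt_id (1 : ℝ)).smul_const w.2)
  have d1 := HasFDerivAt.comp_hasDerivAt_of_eq (1 : ℝ) hd.hasFDerivAt (d0 z) (by simp)
  refine d1.unique ((d0 (φ z)).congr_of_eventuallyEq ?_)
  filter_upwards [Ioi_mem_nhds (zero_lt_one' ℝ)] with r hr using cf.hom r z.1 z.2 hr hz

theorem fr_der (hd : DifferentiableAt ℝ φ z) :
    fderiv ℝ (fr φ z.1) z.2 = (fderiv ℝ φ z).comp (.inr ℝ V V) :=
  (hd.hasFDerivAt.comp z.2 (hasFDerivAt_prodMk_right z.1 z.2)).fderiv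

theorem sGD : SGD := by
  intro m m' φ a z o j o' cf dia hz hd s t ξ h1 h2 h3
  have z0 : z.2 ≠ 0 := fun e => by simp [e] at hz
  have e : fderiv ℝ (m.Z s) z ξ = (0, m.J' z ξ s) := by
    rw [← tv_eq o (m.Z s z) (fderiv ℝ (m.Z s) z ξ), show m.hor (m.Z s z) _ = 0 from h1]
    simp [tv, MF.J']
  have := dia (m.Z s z) ((j.norm s z).trans hz) (dif_fl o j o' cf z0 hd s) (t - s) (m.J' z ξ s)
    ((Dia.tan' o j z ξ s).trans h2) fun e0 => dZ_ne o h3 s (by rw [e, e0]; rfl)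
  rwa [← e, chain o j o' cf z0 hd, cf.flow s z z0, (J_add o' _ _ _ _).1, (J_add o' _ _ _ _).2,
    sub_add_cancel] at this

namespace Gd

variable (g : Gd m m' φ a z)
include g

theorem ne : z.2 ≠ 0 := fun e => by simpa [e] using g.unit

theorem flow (o : m.OK) (j : m.Jac) (o' : m'.OK) (j' : m'.Jac) (cf : C0F m m' φ) (s : ℝ) :
    Gd m m' φ a (m.Z s z) := by
  refine ⟨(j.norm s z).trans g.unit, dif_fl o j o' cf g.ne g.dif s, fun η => ?_, fun η η' => ?_,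
    fun r t η h1 h2 h3 => ?_⟩
  · obtain ⟨ξ, rfl⟩ := dZ_sur o z η s
    rw [chain o j o' cf g.ne g.dif, cf.flow s z g.ne]
    refine (Dia.tan o' j' _ _ s).trans (Eq.trans ?_ (Dia.tan o j z ξ s).symm)
    rw [g.al, ver_phi o o' cf g.ne g.dif]
  · obtain ⟨ξ, rfl⟩ := dZ_sur o z η s
    obtain ⟨ξ', rfl⟩ := dZ_sur o z η' s
    rw [chain o j o' cf g.ne g.dif, chain o j o' cf g.ne g.dif, cf.flow s z g.ne]
    exact (j'.symp _ _ _ s).trans ((g.om ξ ξ').trans (j.symp z ξ ξ' s).symm)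
  · obtain ⟨ξ, rfl⟩ := dZ_sur o z η s
    rw [chain o j o' cf g.ne g.dif, cf.flow s z g.ne, (J_add o' _ _ _ _).1, (J_add o' _ _ _ _).2]
    exact g.lt (r + s) _ ξ ((J_add o z ξ s r).1.symm.trans h1)
      ((Dia.tan' o j z ξ s).symm.trans h2) fun e => h3 (by rw [e, map_zero])

theorem pp (o : m.OK) (o' : m'.OK) (cf : C0F m m' φ) {ξ : V × V} (h : Pp m z ξ) :
    Pp m' (φ z) (fderiv ℝ φ z ξ) :=
  ⟨(g.al ξ).trans h.1, (ver_phi o o' cf g.ne g.dif ξ).trans h.2⟩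

theorem at1 (u : ℝ) {v : V} (h : ⟪z.2, v⟫ = 0) :
    At m' (fr φ z.1) u z.2 v = m'.J (φ z) (fderiv ℝ φ z (0, v)) u := by
  rw [At_apply, h, zero_smul, sub_zero, fr_der g.dif]
  rfl

theorem at2 (u : ℝ) (v : V) :
    At2 m' (fr φ z.1) u z.2 v = m'.J' (φ z) (fderiv ℝ φ z (0, v)) u := by
  rw [At2_apply, fr_der g.dif]
  rfl

end Gd

theorem cur0 (o : m.OK) (j : m.Jac) (F : Fr m z β) :
    D3OD.Cont (kk m z β) ∧ ∀ t, (kk m z β t)ᵀ = kk m z β t := by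
  have cb : ∀ i, Continuous fun t => β t i := fun i =>
    continuous_iff_continuousAt.2 fun t => (F.der i t).continuousAt
  have cz : Continuous fun t => m.Z t z :=
    continuous_iff_continuousAt.2 fun t => (o.ode z t).continuousAt
  refine ⟨fun i l => ((cb _).inner (j.cK.comp (cz.fst.prodMk ((cb l.succ).prodMk
    (cz.snd.prodMk cz.snd))))).neg, fun t => ?_⟩
  ext i l
  simp only [kk, transpose_apply, of_apply]
  rw [real_inner_comm, j.pK, j.aK, inner_neg_left, j.sK, neg_neg]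

theorem orbZ (o : m.OK) (j : m.Jac) (o' : m'.OK) (j' : m'.Jac) (cf : C0F m m' φ)
    (u' : m'.Up (a ^ 2)) (g : Gd m m' φ a z) (F : Fr m z β) (F' : Fr m' (φ z) β') :
    ∃ kM hh vh, OrbZ a kM (kk m' (φ z) β') hh (fun t => bV (β t) (β' t) (dH m' φ (m.Z t z))) vh
      fun t => bV (β t) (β' t) (dV m' φ (m.Z t z)) := by
  have z0 := g.ne
  have G := g.flow o j o' j' cf
  have p0 : ∀ t x e, ⟪β' t 0, dH m' φ (m.Z t z) (tv m (m.Z t z) (pv (β t) x) (pv (β t) e))⟫ = 0 ∧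
      ⟪β' t 0, dV m' φ (m.Z t z) (tv m (m.Z t z) (pv (β t) x) (pv (β t) e))⟫ = 0 := fun t x e => by
    rw [F'.b0, ← cf.flow t z z0]
    exact (G t).pp o o' cf (pp_tv o (F.b0 t) x e)
  refine ⟨_, fun t => bH m (m.Z t z) (β t) (β' t) (dH m' φ (m.Z t z)),
    fun t => bH m (m.Z t z) (β t) (β' t) (dV m' φ (m.Z t z)), (cur0 o j F).1, (cur0 o j F).2,
    cur o' j' F' u', fun i i' h => ?_, fun t x e x' e' => ?_⟩
  · have p := pp_tv o ((F.b0 0).trans (by rw [o.zero])) (y := z) (i 0) (i' 0)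
    have e := D3OD.rUQ _ (cur0 o j F).1 _ _ _ _ 0 h (sol o j F p)
      (by rw [J0 o, hor_tv o, co_pv]) (by rw [J0' o, ver_tv, co_pv])
    have e1 : ∀ t, fderiv ℝ φ (m.Z t z) (tv m (m.Z t z) (pv (β t) (i t)) (pv (β t) (i' t))) =
        fderiv ℝ (m'.Z t) (φ z) (fderiv ℝ φ z (tv m z (pv (β 0) (i 0)) (pv (β 0) (i' 0)))) :=
      fun t => by
        rw [← chain o j o' cf z0 g.dif, (e t).1, (e t).2, pv_co (perp o j F p t).1,
          pv_co (perp o j F p t).2, MF.J, MF.J', tv_eq o]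
    simp only [blk, dH, dV, ContinuousLinearMap.comp_apply, e1, cf.flow _ z z0]
    exact sol o' j' F' (g.pp o o' cf p)
  · simp only [blk, D3OD.om]
    rw [← inner_co (p0 t x e).1, ← inner_co (p0 t x e).2]
    refine ((G t).om _ _).trans ?_
    rw [hor_tv o, hor_tv o, ver_tv, ver_tv, inner_pv, inner_pv]

open RLK2 in
theorem link (o : m.OK) (j : m.Jac) (o' : m'.OK) (j' : m'.Jac) (cf : C0F m m' φ) (ha : 0 < a)
    (u' : m'.Up (a ^ 2)) (g : Gd m m' φ a z) : ∃ kN A A', Sys a kN A A' ∧ (∀ s t,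
      (∀ c, Dt m' (fr φ (m.Z s z).1) c (t - s) (m.Z s z).2 = |(A' s t + c • A s t).det|) ∧
      (A s t = 0 → At m' (fr φ (m.Z s z).1) (t - s) (m.Z s z).2 = 0)) ∧
    ∀ e, ⟪z.2, e⟫ = 0 → e ≠ 0 → ∃ x, x ≠ 0 ∧ ∀ t, ⟪m'.J (φ z) (fderiv ℝ φ z (0, e)) t,
      m'.J' (φ z) (fderiv ℝ φ z (0, e)) t⟫ = A 0 t *ᵥ x ⬝ᵥ A' 0 t *ᵥ x := by
  have z0 := g.ne
  have Gs := g.flow o j o' j' cf
  obtain ⟨β, F⟩ := exists_fr j g.unit
  obtain ⟨β', F'⟩ := exists_fr (z := φ z) j' ((cf.norm z z0).trans g.unit)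
  obtain ⟨kM, hh, vh, O⟩ := orbZ o j o' j' cf u' g F F'
  have p : ∀ s e, ⟪(m.Z s z).2, pv (β s) e⟫ = 0 := fun s e => by rw [← F.b0, pv_perp]
  have G : ∀ s, Fr m' (φ (m.Z s z)) fun u => β' (u + s) := fun s => by
    rw [cf.flow s z z0]
    exact shift o' F' s
  have q := fun s e => (Gs s).pp o o' cf (ppv (m := m) (p s e))
  have pe : ∀ s t e, ⟪β' t 0, m'.J (φ (m.Z s z)) (fderiv ℝ φ (m.Z s z) (0, pv (β s) e)) (t - s)⟫ =
      0 ∧ ⟪β' t 0, m'.J' (φ (m.Z s z)) (fderiv ℝ φ (m.Z s z) (0, pv (β s) e)) (t - s)⟫ = 0 :=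
    fun s t e => by simpa only [sub_add_cancel] using perp o' j' (G s) (q s e) (t - s)
  refine ⟨_, fun s t => mat (β s) (β' t) (At m' (fr φ (m.Z s z).1) (t - s) (m.Z s z).2),
    fun s t => mat (β s) (β' t) (At2 m' (fr φ (m.Z s z).1) (t - s) (m.Z s z).2),
    sys_of O ⟨fun s e => ?_, fun s => ?_, fun s => ?_⟩ fun s t => D3OD.rMAT D3OD.rEIG _ _
      (fun x x' => ?_) fun μ e hμ he h => ?_, fun s t => ⟨fun c => ?_, fun h => ?_⟩,
    fun e h1 h2 => ⟨co (β 0) e, fun h => h2 ?_, fun t => ?_⟩⟩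
  · have h := sols (sol o' j' (G s) (q s e)) s
    have k : (fun t => kk m' (φ (m.Z s z)) (fun u => β' (u + s)) (t - s)) = kk m' (φ z) β' := by
      funext t
      simp only [kk, cf.flow s z z0, ← o'.add, sub_add_cancel]
    rw [k] at h
    simp only [sub_add_cancel] at h
    simp only [mat_mulVec, (Gs s).at1 _ (p s e), (Gs s).at2]
    exact h
  · refine Matrix.toLin'.injective (LinearMap.ext fun e => ?_)
    simp only [toLin'_apply, bV, mat_mulVec, (Gs s).at1 _ (p s e), sub_self, J0 o']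
    rfl
  · refine Matrix.toLin'.injective (LinearMap.ext fun e => ?_)
    simp only [toLin'_apply, bV, mat_mulVec, (Gs s).at2, sub_self, J0' o']
    rfl
  · simp only [D3OD.om, smul_mulVec, mat_mulVec, (Gs s).at1 _ (p s _), (Gs s).at2,
      smul_dotProduct, dotProduct_smul, smul_eq_mul]
    rw [← inner_co (pe s t x).1, ← inner_co (pe s t x).2, ← mul_sub, j'.symp, (Gs s).om]
    simp [MF.hor]
  · have h1 := (Gs s).lt 0 (t - s) (0, pv (β s) e) (by rw [J0 o]; simp [MF.hor])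
      (ppv (m := m) (p s e)).2 fun h0 => he (by
        rw [← co_pv (β s) e, show pv (β s) e = 0 from congrArg Prod.snd h0]
        exact funext fun _ => inner_zero_right _)
    simp only [smul_mulVec, mat_mulVec, (Gs s).at1 _ (p s _), (Gs s).at2, smul_smul] at h
    have h2 := pow_lt_pow_left₀ h1 (by positivity) two_ne_zero
    rw [mul_pow, ← real_inner_self_eq_norm_sq, ← real_inner_self_eq_norm_sq, inner_co (pe s t e).1,
      inner_co (pe s t e).2, h, smul_dotProduct, dotProduct_smul, smul_eq_mul, smul_eq_mul] at h2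
    have h3 := mul_nonneg (mul_nonneg (sub_nonneg.2 ((sq_le_one_iff_abs_le_one μ).2 hμ))
      (sq_nonneg a)) (D3OD.dot_nonneg (co (β' t)
        (m'.J (φ (m.Z s z)) (fderiv ℝ φ (m.Z s z) (0, pv (β s) e)) (t - s))))
    linarith
  · obtain ⟨ε, h1, h2⟩ := D3OD.det_mat (β s) (β' t)
    rw [Dt, h2 _ (by
      rw [F.b0, F'.b0, _root_.add_apply, _root_.smul_apply, at0 _ _ (Gs s).unit, smul_zero,
        add_zero, (Gs s).at2, radial cf (Gs s).ne (Gs s).dif, radJ o' j', cf.flow s z z0, ← o'.add,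
        sub_add_cancel]), abs_mul, h1, one_mul]
    congr 2
    ext i l
    simp [mat, inner_add_right, inner_smul_right]
  · ext1 v
    have e : v = ⟪β s 0, v⟫ • (m.Z s z).2 + pv (β s) (co (β s) v) := by
      rw [← F.b0]
      exact ((β s).sum_repr' v).symm.trans (Fin.sum_univ_succ _)
    have h1 := mat_mulVec (β := β s) (β' := β' t)
      (At m' (fr φ (m.Z s z).1) (t - s) (m.Z s z).2) (co (β s) v)
    have h2 := (pe s t (co (β s) v)).1
    rw [← (Gs s).at1 _ (p s _)] at h2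
    rw [show mat (β s) (β' t) (At m' (fr φ (m.Z s z).1) (t - s) (m.Z s z).2) = 0 from h,
      zero_mulVec] at h1
    have h3 := (congrArg (pv (β' t)) h1).trans (pv_co h2)
    rw [e, map_add, map_smul, at0 _ _ (Gs s).unit, smul_zero, zero_add, ← h3]
    simp [pv]
  · rw [← pv_co (β := β 0) (v := e) (by rw [F.b0, o.zero, h1]), h]
    simp [pv]
  · have h3 := (pe 0 t (co (β 0) e)).1
    simp only [mat_mulVec, (Gs 0).at1 _ (p 0 _), (Gs 0).at2]
    rw [← inner_co h3, pv_co (by rw [F.b0, o.zero, h1]), o.zero, sub_zero]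

theorem sGROW : SGROW := by
  intro m m' φ a z o j o' j' cf ha u' g
  obtain ⟨kN, A, A', S, -, h⟩ := link o j o' j' cf ha u' g
  obtain ⟨δ, C, d0, k⟩ := S.grow ha 0
  refine ⟨|C / δ| + 1, fun t e h1 h2 => ?_⟩
  obtain ⟨x, x0, hx⟩ := h e h1 h2
  have x1 := (D3OD.dot_nonneg x).lt_of_ne' (mt dotProduct_self_eq_zero.1 x0)
  have b : ∀ r, |C / δ| + 1 ≤ r → 0 ≤ r ∧ 0 < (δ * r - C) * (x ⬝ᵥ x) := fun r hr =>
    ⟨le_trans (by positivity) hr, mul_pos (sub_pos.2 ((div_lt_iff₀' d0).1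
      ((le_abs_self _).trans_lt ((lt_add_one _).trans_le hr)))) x1⟩
  rw [hx]
  refine ⟨fun ht => ?_, fun ht => ?_⟩
  · have := (k t x).1 (b t ht).1
    rw [sub_zero] at this
    exact (b t ht).2.trans_le this
  · have h3 := b (-t) (le_neg.1 ht)
    have := (k t x).2 (neg_nonneg.1 h3.1)
    rw [zero_sub] at this
    exact this.trans_lt (neg_neg_of_pos h3.2)

end

end Pool.Agent.MP_3ee8cb_gt.CZO
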