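import Pool.Agent.MP_3ee8cb_gt.CZO.Link
import Pool.Agent.MP_3ee8cb_gt.D3NP.RSC2
import Pool.Agent.MP_3ee8cb_gt.D3SI.Int

/-! A measurable and invariant version of the determinants. -/

namespace Pool.Agent.MP_3ee8cb_gt.CZO

open Set Filter Topology D3 D3.SC D3.SI D3NP
open scoped RealInnerProductSpace

noncomputable section

/-- The determinant as a function of the image, the derivative and the direction. -/
def Ps (m : MF) (c t : ℝ) (p : (V × V) × (V × V →L[ℝ] V × V) × V) : ℝ :=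
  |((m.ver (m.Z t p.1)).comp ((fderiv ℝ (m.Z t) p.1).comp (p.2.1.comp (.inr ℝ V V))) +
    c • ((m.hor (m.Z t p.1)).comp ((fderiv ℝ (m.Z t) p.1).comp (p.2.1.comp (.inr ℝ V V)))).comp
      (ContinuousLinearMap.id ℝ V - (innerSL ℝ p.2.2).smulRight p.2.2)).det|

/-- The measurable version of `Dt`. -/
def Dm (m : MF) (φ : V × V → V × V) (z : V × V) (c t : ℝ) : ℝ :=
  Ps m c t (indicator {z | z.2 ≠ 0} φ z, fderiv ℝ φ z, z.2)

variable {m m' : MF} {φ : V × V → V × V} {z : V × V}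

theorem c_Ps (o : m.OK) (c t : ℝ) : Continuous (Ps m c t) := by
  have h1 : Continuous fun p : (V × V) × (V × V →L[ℝ] V × V) × V =>
      (ContinuousLinearMap.id ℝ V - (innerSL ℝ p.2.2).smulRight p.2.2) :=
    continuous_const.sub ((((ContinuousLinearMap.smulRightL ℝ V V).continuous.comp
      ((innerSL ℝ).continuous.comp continuous_snd.snd))).clm_apply continuous_snd.snd)
  have h2 : Continuous fun p : (V × V) × (V × V →L[ℝ] V × V) × V =>
      (fderiv ℝ (m.Z t) p.1).comp (p.2.1.comp (.inr ℝ V V)) :=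
    ((RSC2.c_dZ o).comp (continuous_const.prodMk continuous_fst)).clm_comp
      (continuous_snd.fst.clm_comp continuous_const)
  have h3 : Continuous fun p : (V × V) × (V × V →L[ℝ] V × V) × V => m.Z t p.1 :=
    (cZ o t).continuous.comp continuous_fst
  exact (ContinuousLinearMap.continuous_det.comp ((((c_ver o).comp h3).clm_comp h2).add
    (((((c_hor o).comp h3).clm_comp h2).clm_comp h1).const_smul c))).abs

theorem m_Dm (o : m'.OK) (cf : C0F m m' φ) (c t : ℝ) : Measurable fun z => Dm m' φ z c t := by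
  classical
  have := cf.cont.measurable_piecewise (g := 0) continuousOn_const isOpen_U.measurableSet
  rw [piecewise_eq_indicator] at this
  exact (c_Ps o c t).measurable.comp
    (this.prodMk ((measurable_fderiv ℝ φ).prodMk measurable_snd))

theorem Dm_eq (hz : z.2 ≠ 0) (hd : DifferentiableAt ℝ φ z) (c t : ℝ) :
    Dm m φ z c t = Dt m (fr φ z.1) c t z.2 := by
  rw [Dm, indicator_of_mem (show z ∈ {z : V × V | z.2 ≠ 0} from hz), Dt, At, At2, fr_der hd]
  rfl

variable {Γ Λ : Type} [Group Γ] [Group Λ] [MulAction Γ V] [MulAction Λ V] {ρ : Γ ≃* Λ}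
  {O : Γ → V → V ≃ₗᵢ[ℝ] V} {O' : Λ → V → V ≃ₗᵢ[ℝ] V}

theorem ac_ne (γ : Γ) (hz : z.2 ≠ 0) : (ac O γ z).2 ≠ 0 :=
  fun e => hz ((O γ z.1).map_eq_zero_iff.1 e)

theorem ac_mul (A : Act m Γ O) {γ δ : Γ} (h : γ * δ = 1) (z : V × V) :
    ac O γ (ac O δ z) = z := by
  simp only [ac, ← mul_smul, ← A.mul, h, one_smul, A.one]

theorem dif_ac (A : Act m Γ O) (A' : Act m' Λ O') (he : Eqv ρ O O' φ) (γ : Γ) (hz : z.2 ≠ 0)
    (hd : DifferentiableAt ℝ φ z) : DifferentiableAt ℝ φ (ac O γ z) := by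
  have e := ac_mul A (inv_mul_cancel γ) z
  have d1 : DifferentiableAt ℝ (ac O γ⁻¹) (ac O γ z) := (A.c1 γ⁻¹).differentiable one_ne_zero _
  have d2 : Differentiable ℝ (ac O' (ρ γ)) := (A'.c1 _).differentiable one_ne_zero
  refine ((d2 _).comp _ (DifferentiableAt.comp (g := φ) _ (e.symm ▸ hd) d1)).congr_of_eventuallyEq
    ?_
  filter_upwards [nb (ac_ne (O := O) γ hz)] with w hw
  exact (congrArg φ (ac_mul A (mul_inv_cancel γ) w)).symm.trans (he γ _ (ac_ne γ⁻¹ hw))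

theorem der_ac (A : Act m Γ O) (A' : Act m' Λ O') (he : Eqv ρ O O' φ) (γ : Γ) (hz : z.2 ≠ 0)
    (hd : DifferentiableAt ℝ φ z) (v : V) :
    fderiv ℝ (fr φ (γ • z.1)) (O γ z.1 z.2) (O γ z.1 v) =
      fderiv ℝ (fun w : V × V => (ρ γ • w.1, O' (ρ γ) w.1 w.2)) (φ z)
        (fderiv ℝ (fr φ z.1) z.2 v) := by
  have fd : ∀ w : V × V, DifferentiableAt ℝ φ w → DifferentiableAt ℝ (fr φ w.1) w.2 := fun w h =>
    (h.hasFDerivAt.comp w.2 (hasFDerivAt_prodMk_right w.1 w.2)).differentiableAt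
  have h1 := (fd _ (dif_ac A A' he γ hz hd)).hasFDerivAt.comp z.2
    ((O γ z.1).toContinuousLinearEquiv : V →L[ℝ] V).hasFDerivAt
  have h2 := (((A'.c1 (ρ γ)).differentiable one_ne_zero) (φ z)).hasFDerivAt.comp z.2
    (fd z hd).hasFDerivAt
  have h3 := h2.congr_of_eventuallyEq (f₁ := fr φ (γ • z.1) ∘
      ((O γ z.1).toContinuousLinearEquiv : V →L[ℝ] V)) (by
    filter_upwards [isOpen_ne.mem_nhds hz] with a h4 using he γ (z.1, a) h4)
  exact DFunLike.congr_fun (h1.unique h3) v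

theorem Dm_inv (o : m'.OK) (A : Act m Γ O) (A' : Act m' Λ O') (he : Eqv ρ O O' φ) (γ : Γ)
    (hz : z.2 ≠ 0) : Dm m' φ (ac O γ z) = Dm m' φ z := by
  funext c t
  by_cases hd : DifferentiableAt ℝ φ z
  · rw [Dm_eq hz hd, Dm_eq (ac_ne γ hz) (dif_ac A A' he γ hz hd)]
    obtain ⟨e, h1, h2⟩ := det_conj (O γ z.1) (O' (ρ γ) (m'.Z t (φ z)).1)
    have e0 : fr φ (γ • z.1) (O γ z.1 z.2) = (ρ γ • (φ z).1, O' (ρ γ) (φ z).1 (φ z).2) :=
      he γ z hz
    rw [Dt, Dt, h2 (At2 m' (fr φ z.1) t z.2 + c • At m' (fr φ z.1) t z.2), abs_mul, h1, one_mul]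
    intro v
    simp only [ac, add_apply, smul_apply, map_add, map_smul]
    refine congrArg₂ (· + c • ·) ?_ ?_
    · rw [At2_apply, At2_apply, der_ac A A' he γ hz hd, e0, MF.J', RSC2.chain o A', A'.flow]
      exact A'.ver _ _ _
    · rw [At_apply, At_apply, LinearIsometryEquiv.inner_map_map, ← map_smul, ← map_sub,
        der_ac A A' he γ hz hd, e0, MF.J, RSC2.chain o A', A'.flow]
      exact A'.hor _ _ _
  · have h2 : ¬DifferentiableAt ℝ φ (ac O γ z) := fun h => hd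
      (ac_mul A (inv_mul_cancel γ) z ▸ dif_ac A A' he γ⁻¹ (ac_ne γ hz) h)
    simp only [Dm, Ps, fderiv_zero_of_not_differentiableAt hd,
      fderiv_zero_of_not_differentiableAt h2, ContinuousLinearMap.zero_comp,
      ContinuousLinearMap.comp_zero]

/-- The infimum over the rationals. -/
def Iq (f : ℝ → ℝ) : ℝ := ⨅ r : ℚ, f r

/-- The infimum over a window. -/
def In (n : ℕ) (f : ℝ → ℝ) : ℝ := Iq fun t => f (max (-n) (min n t))

variable {f : ℝ → ℝ}

theorem Iq_q (h0 : ∀ t, 0 ≤ f t) (r : ℚ) : Iq f ≤ f r :=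
  ciInf_le ⟨0, forall_mem_range.2 fun _ => h0 _⟩ r

theorem Iq_abs {C : ℝ} (h0 : ∀ t, 0 ≤ f t) (h1 : ∀ t, f t ≤ C) : 0 ≤ Iq f ∧ Iq f ≤ C :=
  ⟨le_ciInf fun _ => h0 _, (Iq_q h0 0).trans (h1 _)⟩

theorem Iq_le (hf : Continuous f) (h0 : ∀ t, 0 ≤ f t) (t : ℝ) : Iq f ≤ f t :=
  Rat.denseRange_cast.induction_on t (isClosed_le continuous_const hf) (Iq_q h0)

theorem In_eq (hf : Continuous f) (h0 : ∀ t, 0 ≤ f t) (n : ℕ) :
    In n f = sInf (f '' Icc (-n) n) := by
  have n0 : -(n : ℝ) ≤ n := neg_le_self n.cast_nonneg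
  refine le_antisymm (le_csInf ((nonempty_Icc.2 n0).image f) (forall_mem_image.2 fun t ht => ?_))
    (le_ciInf fun r => csInf_le ⟨0, forall_mem_image.2 fun _ _ => h0 _⟩
      (mem_image_of_mem f ⟨le_max_left _ _, max_le n0 (min_le_left _ _)⟩))
  have := Iq_le (f := fun t => f (max (-n) (min n t))) (by fun_prop) (fun _ => h0 _) t
  rwa [min_eq_right ht.2, max_eq_right ht.1] at this

theorem In_lim (h0 : ∀ t, 0 ≤ f t) : Tendsto (fun n => In n f) atTop (𝓝 (Iq f)) := by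
  refine tendsto_order.2 ⟨fun b hb => .of_forall fun n => hb.trans_le (le_ciInf fun r => ?_),
    fun b hb => ?_⟩
  · have := Iq_q h0 (max (-n) (min n r))
    push_cast at this
    exact this
  · obtain ⟨r, hr⟩ := exists_lt_of_ciInf_lt hb
    filter_upwards [tendsto_natCast_atTop_atTop.eventually_ge_atTop |(r : ℝ)|] with n hn
    have := Iq_q (f := fun t => f (max (-n) (min n t))) (fun _ => h0 _) r
    rw [min_eq_right (abs_le.1 hn).2, max_eq_right (abs_le.1 hn).1] at this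
    exact this.trans_lt hr

theorem In_orb {F : ℝ → ℝ → ℝ} (hF : Continuous fun p : ℝ × ℝ => F p.1 p.2) (h0 : ∀ s t, 0 ≤ F s t)
    (n : ℕ) : Continuous (fun s => In n fun t => F s (t + s)) ∧ ∀ s : ℝ,
      (∃ t ∈ Icc (s - n) (s + n), F s t ≤ In n fun t => F s (t + s)) ∧
      ∀ t ∈ Icc (s - n) (s + n), (In n fun t => F s (t + s)) ≤ F s t := by
  have c2 : Continuous fun p : ℝ × ℝ => F p.1 (p.2 + p.1) :=
    hF.comp (continuous_fst.prodMk (continuous_snd.add continuous_fst))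
  have c1 : ∀ s, Continuous fun t => F s (t + s) := fun s =>
    c2.comp (continuous_const.prodMk continuous_id)
  simp only [fun s => In_eq (c1 s) (fun _ => h0 _ _) n]
  refine ⟨isCompact_Icc.continuous_sInf c2, fun s => ?_⟩
  obtain ⟨t, ht, h1, h2⟩ := isCompact_Icc.exists_sInf_image_eq_and_le
    (nonempty_Icc.2 (neg_le_self n.cast_nonneg : -(n : ℝ) ≤ n)) (c1 s).continuousOn
  rw [h1]
  refine ⟨⟨t + s, ⟨by linarith [ht.1], by linarith [ht.2]⟩, le_rfl⟩, fun r hr => ?_⟩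
  simpa using h2 (r - s) ⟨by linarith [hr.1], by linarith [hr.2]⟩

end

end Pool.Agent.MP_3ee8cb_gt.CZO
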