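import Pool.Agent.MP_3ee8cb_gt.D3NP.RTWO
import Pool.Agent.MP_3ee8cb_gt.D3NP.RBS
import Pool.Agent.MP_3ee8cb_gt.D3NP.RORB
import Pool.Agent.MP_3ee8cb_gt.D3NP.RAL1
import Pool.Agent.MP_3ee8cb_gt.D3NP.RAL2
import Pool.Agent.MP_3ee8cb_gt.D3NP.RAL3
import Pool.Agent.MP_3ee8cb_gt.D3NP.RDINI
import Pool.Agent.MP_3ee8cb_gt.D3OD.Fin0

/-! One orbit, with no hypothesis on the curvature of the source. -/

namespace Pool.Agent.MP_3ee8cb_gt.CZO

open Matrix Set D3OD D3NP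

/-- A symplectic map between two equations. -/
structure OrbZ (a : ℝ) (kM kN hh hv vh vv : ℝ → M) : Prop where
  cM : Cont kM
  sM : ∀ t, (kM t)ᵀ = kM t
  cN : Cur (a ^ 2) kN
  map : ∀ j j', Sol kM j j' →
    Sol kN (fun t => hh t *ᵥ j t + hv t *ᵥ j' t) (fun t => vh t *ᵥ j t + vv t *ᵥ j' t)
  symp : ∀ t x e x' e', om (hh t *ᵥ x + hv t *ᵥ e) (vh t *ᵥ x + vv t *ᵥ e)
    (hh t *ᵥ x' + hv t *ᵥ e') (vh t *ᵥ x' + vv t *ᵥ e') = om x e x' e'

/-- What is used of a family of planes. -/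
structure Sys (a : ℝ) (kN : ℝ → M) (A A' : ℝ → ℝ → M) : Prop where
  cN : Cur (a ^ 2) kN
  sol : ∀ s, MSol kN (A s) (A' s)
  good : ∀ s t, Good (a • A s t) (A' s t)
  ds : ∀ s t, MD (fun r => Bm (A r t) (A' r t)) (-Wm (A' s t)) s
  cA : Continuous fun p : ℝ × ℝ => A p.1 p.2
  cA' : Continuous fun p : ℝ × ℝ => A' p.1 p.2

open RTWO

theorem inv {k P P2 Q Q2 : ℝ → M} (hk : Cont k) (sk : ∀ t, (k t)ᵀ = k t)
    (hP : MSol k P P2) (hQ : MSol k Q Q2) (p0 : P 0 = 1) (p1 : P2 0 = 0) (q0 : Q 0 = 0)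
    (q1 : Q2 0 = 1) (s : ℝ) (x e : V) :
    P s *ᵥ ((Q2 s)ᵀ *ᵥ x - (Q s)ᵀ *ᵥ e) + Q s *ᵥ ((P s)ᵀ *ᵥ e - (P2 s)ᵀ *ᵥ x) = x ∧
    P2 s *ᵥ ((Q2 s)ᵀ *ᵥ x - (Q s)ᵀ *ᵥ e) + Q2 s *ᵥ ((P s)ᵀ *ᵥ e - (P2 s)ᵀ *ᵥ x) = e := by
  obtain ⟨U, U2, hU, u0, u1⟩ := rMEX sEX k hk s 1 0
  obtain ⟨W, W2, hW, w0, w1⟩ := rMEX sEX k hk s 0 1
  have hj := comb hU hW x e
  generalize hj0 : (fun t => U t *ᵥ x + W t *ᵥ e) = j at hj
  generalize hj1 : (fun t => U2 t *ᵥ x + W2 t *ᵥ e) = j' at hj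
  have a0 : j s = x := by simp only [← hj0, u0, w0, one_mulVec, zero_mulVec, add_zero]
  have a1 : j' s = e := by simp only [← hj1, u1, w1, one_mulVec, zero_mulVec, zero_add]
  have eX : j 0 = (Q2 s)ᵀ *ᵥ x - (Q s)ᵀ *ᵥ e := ext_dot fun y => by
    have h := (rOM k sk _ _ _ _ hj (hQ y)).1 0 s
    simp only [om, q0, q1, a0, a1, zero_mulVec, one_mulVec, dotProduct_zero, sub_zero] at h
    rw [h, sub_dotProduct, mulVec_transpose, mulVec_transpose, dotProduct_mulVec,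
      dotProduct_mulVec]
  have eY : j' 0 = (P s)ᵀ *ᵥ e - (P2 s)ᵀ *ᵥ x := ext_dot fun y => by
    have h := (rOM k sk _ _ _ _ hj (hP y)).1 0 s
    simp only [om, p0, p1, a0, a1, zero_mulVec, one_mulVec, dotProduct_zero] at h
    rw [sub_dotProduct, mulVec_transpose, mulVec_transpose, ← dotProduct_mulVec,
      ← dotProduct_mulVec]
    linarith
  have h := rUQ k hk _ _ _ _ 0 (comb hP hQ (j 0) (j' 0)) hj (by simp [p0, q0])
    (by simp [p1, q1]) s
  rw [← eX, ← eY, ← a0, ← a1]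
  simpa only [a0, a1] using h

theorem msol_c {k P P2 : ℝ → M} (hP : MSol k P P2) : Continuous P ∧ Continuous P2 :=
  ⟨continuous_matrix fun i l => continuous_iff_continuousAt.2 fun t =>
      ((RBS.msol hP t).1 i l).continuousAt,
    continuous_matrix fun i l => continuous_iff_continuousAt.2 fun t =>
      ((RBS.msol hP t).2 i l).continuousAt⟩

theorem sys_of {a : ℝ} {kM kN hh hv vh vv : ℝ → M} {A A' : ℝ → ℝ → M}
    (ho : OrbZ a kM kN hh hv vh vv) (ht : Two kN hv vv A A')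
    (hg : ∀ s t, Good (a • A s t) (A' s t)) : Sys a kN A A' := by
  obtain ⟨P, P2, hP, p0, p1⟩ := rMEX sEX kM ho.cM 0 1 0
  obtain ⟨Q, Q2, hQ, q0, q1⟩ := rMEX sEX kM ho.cM 0 0 1
  have hi := inv ho.cM ho.sM hP hQ p0 p1 q0 q1
  have hL : ∀ {R R2 : ℝ → M}, MSol kM R R2 → MSol kN (fun t => hh t * R t + hv t * R2 t)
      (fun t => vh t * R t + vv t * R2 t) := fun hR e => by
    simp only [add_mulVec, ← mulVec_mulVec]
    exact ho.map _ _ (hR e)
  have hJ := fun (s : ℝ) (x e : V) => ho.map _ _ (comb hP hQ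
    ((Q2 s)ᵀ *ᵥ x - (Q s)ᵀ *ᵥ e) ((P s)ᵀ *ᵥ e - (P2 s)ᵀ *ᵥ x))
  have hA := fun (s : ℝ) (e : V) => rUQ kN ho.cN.cont _ _ _ _ s (ht.sol s e) (hJ s 0 e)
    (by rw [(hi s 0 e).1, (hi s 0 e).2, ht.a0, mulVec_zero, zero_add])
    (by rw [(hi s 0 e).1, (hi s 0 e).2, ht.a1, mulVec_zero, zero_add])
  have eA : ∀ s t, A s t = (hh t * Q t + hv t * Q2 t) * (P s)ᵀ -
      (hh t * P t + hv t * P2 t) * (Q s)ᵀ := fun s t => ext_mv fun e => by
    rw [(hA s e t).1, ← split, mulVec_zero, zero_add]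
  have eA' : ∀ s t, A' s t = (vh t * Q t + vv t * Q2 t) * (P s)ᵀ -
      (vh t * P t + vv t * P2 t) * (Q s)ᵀ := fun s t => ext_mv fun e => by
    rw [(hA s e t).2, ← split, mulVec_zero, zero_add]
  have cP := ((msol_c hP).1.comp (continuous_fst (X := ℝ) (Y := ℝ))).matrix_transpose
  have cQ := ((msol_c hQ).1.comp (continuous_fst (X := ℝ) (Y := ℝ))).matrix_transpose
  refine ⟨ho.cN, ht.sol, hg, fun s t => ?_, ?_, ?_⟩
  · have d1 : MD (fun r => A r t) (-((hh t * P t + hv t * P2 t) * (Q2 s)ᵀ -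
        (hh t * Q t + hv t * Q2 t) * (P2 s)ᵀ)) s := by
      simp only [eA, neg_sub]
      exact one (md hP s) (md hQ s)
    have d2 : MD (fun r => A' r t) (-((vh t * P t + vv t * P2 t) * (Q2 s)ᵀ -
        (vh t * Q t + vv t * Q2 t) * (P2 s)ᵀ)) s := by
      simp only [eA', neg_sub]
      exact one (md hP s) (md hQ s)
    have h := rBDER _ _ _ _ s d1 d2 (hg s t).det
    have e := rSCH ((hh t * P t + hv t * P2 t) * (Q2 s)ᵀ - (hh t * Q t + hv t * Q2 t) * (P2 s)ᵀ)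
      (A s t) ((vh t * P t + vv t * P2 t) * (Q2 s)ᵀ - (vh t * Q t + vv t * Q2 t) * (P2 s)ᵀ)
      (A' s t) (fun x e x' e' => by
        rw [eA, eA', split, split, split, split]
        have h := (rOM kN ho.cN.symm _ _ _ _ (hJ s x e) (hJ s x' e')).1 t s
        simp only [(hi s _ _).1, (hi s _ _).2] at h
        rw [h, ho.symp]) (hg s t).det
    generalize (hh t * P t + hv t * P2 t) * (Q2 s)ᵀ - (hh t * Q t + hv t * Q2 t) * (P2 s)ᵀ = D
      at h e
    generalize (vh t * P t + vv t * P2 t) * (Q2 s)ᵀ - (vh t * Q t + vv t * Q2 t) * (P2 s)ᵀ = E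
      at h e
    have e2 : -D * (A' s t)⁻¹ - Bm (A s t) (A' s t) * -E * (A' s t)⁻¹ = -Wm (A' s t) := by
      rw [Wm, ← e]
      simp only [Matrix.mul_neg, Matrix.neg_mul, Matrix.sub_mul]
      abel
    rwa [e2] at h
  · simp only [eA]
    exact (((msol_c (hL hQ)).1.comp continuous_snd).matrix_mul cP).sub
      (((msol_c (hL hP)).1.comp continuous_snd).matrix_mul cQ)
  · simp only [eA']
    exact (((msol_c (hL hQ)).2.comp continuous_snd).matrix_mul cP).sub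
      (((msol_c (hL hP)).2.comp continuous_snd).matrix_mul cQ)

variable {a : ℝ} {kN : ℝ → M} {A A' : ℝ → ℝ → M}

theorem Sys.dt (o : Sys a kN A A') (s t : ℝ) :
    MD (fun r => Bm (A s r) (A' s r)) (1 - Bm (A s t) (A' s t) * kN t * Bm (A s t) (A' s t)) t ∧
    HasDerivAt (fun r => Real.log |(A' s r).det|) (kN t * Bm (A s t) (A' s t)).trace t := by
  have hd := (o.good s t).det
  have hu : IsUnit (A' s t).det := isUnit_iff_ne_zero.2 hd
  obtain ⟨m1, m2⟩ := RBS.msol (o.sol s) t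
  refine ⟨?_, ?_⟩
  · have h := rBDER _ _ _ _ t m1 m2 hd
    have e : A' s t * (A' s t)⁻¹ - Bm (A s t) (A' s t) * (kN t * A s t) * (A' s t)⁻¹ =
        1 - Bm (A s t) (A' s t) * kN t * Bm (A s t) (A' s t) := by
      rw [Matrix.mul_nonsing_inv _ hu]
      simp only [Bm, Matrix.mul_assoc]
    rwa [e] at h
  · simp only [Real.log_abs]
    refine (RBDER.d_log m2 hd).congr_deriv ?_
    rw [Matrix.trace_mul_comm, Bm, Matrix.mul_assoc]

/-- The truncated defect. -/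
noncomputable def pn3 (u v y : ℝ) : ℝ := 2 / √(u * v) - 4 + 2 * min y 3

/-- The inequality along one orbit. -/
theorem Sys.orb (O : Sys a kN A A') (ha : 0 < a) (T : ℝ) (μ q : ℝ → ℝ) (hT : 0 ≤ T)
    (cμ : Continuous μ) (cq : Continuous q)
    (hμ : ∀ s, ∃ t ∈ Icc (s - T) (s + T), min |(A' s t).det| 3 ≤ μ s)
    (hq : ∀ s, ∀ t ∈ Icc (s - T) (s + T), q s ≤
      pn3 |(A' s t + (a / 2) • A s t).det| |(A' s t + (-(a / 2)) • A s t).det| |(A' s t).det|)
    (S : ℝ) (hS : 0 ≤ S) : -(8 / a + 4 * T) ≤ ∫ s in (0 : ℝ)..S, (2 * (μ s - 1) - q s) := by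
  have G := O.good
  have L1 := fun s t => rAL1 rEIG a (A s t) (A' s t) (kN t) ha (G s t) (O.cN.symm t) (O.cN.low t)
  have L2 := fun s t => rAL2 rEIG a (A s t) (A' s t) ha (G s t)
  have c0 : a / 2 ≠ 0 := by positivity
  have m1 : ∀ t, Antitone fun r => (kN t * Bm (A r t) (A' r t)).trace := fun t =>
    antitone_of_hasDerivAt_nonpos (fun r => RORB.trD (kN t) (O.ds r t)) fun r => by
      have := (L1 r t).2.2.2.2
      rw [Matrix.mul_neg, trace_neg]
      exact neg_nonpos.2 this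
  obtain ⟨τ, mτ, hτ⟩ := rTOP (fun s t => Real.log |(A' s t).det|) T hT
    (fun s => continuous_iff_continuousAt.2 fun t => (O.dt s t).2.continuousAt)
    fun s s' h => antitone_of_hasDerivAt_nonpos (fun t => (O.dt s' t).2.sub (O.dt s t).2)
      fun t => sub_nonpos.2 (m1 t h)
  have Fs := fun s t => rFDER (fun r => Bm (A r t) (A' r t)) _ (a / 2) s (O.ds s t) c0 (L1 s t).1
    (L1 s t).2.1
  have Ft := fun s t => rFDER (fun r => Bm (A s r) (A' s r)) _ (a / 2) t (O.dt s t).1 c0 (L1 s t).1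
    (L1 s t).2.1
  have d1 : ∀ s t, (((1 + (a / 2) • Bm (A s t) (A' s t))⁻¹ +
      (1 - (a / 2) • Bm (A s t) (A' s t))⁻¹) * -Wm (A' s t)).trace / 2 ≤
      -(2 / √(|(A' s t + (a / 2) • A s t).det| * |(A' s t + (-(a / 2)) • A s t).det|)) :=
    fun s t => by
      have := L2 s t
      rw [Gm] at this
      rw [Matrix.mul_neg, trace_neg, neg_div]
      exact neg_le_neg this
  have m2 : ∀ t, Antitone fun r => Fm (a / 2) (Bm (A r t) (A' r t)) := fun t =>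
    antitone_of_hasDerivAt_nonpos (fun r => Fs r t) fun r =>
      (d1 r t).trans (neg_nonpos.2 (by positivity))
  have m3 : ∀ s, Antitone fun t => Fm (a / 2) (Bm (A s t) (A' s t)) - 2 * t := fun s =>
    antitone_of_hasDerivAt_nonpos (fun t => (Ft s t).sub ((hasDerivAt_id t).const_mul 2))
      fun t => by
        have := (L1 s t).2.2.1
        rw [Gm] at this
        simpa using this
  have ck : Continuous fun s => 2 * (μ s - 1) - q s := by fun_prop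
  have k := rDINI (fun s => Fm (a / 2) (Bm (A s (τ s)) (A' s (τ s))) - 2 * τ s)
    (fun s => 2 * (μ s - 1) - q s - 2)
    (fun s r h => (m3 r (mτ h)).trans (sub_le_sub_right (m2 (τ s) h) _)) (by fun_prop)
    (fun s => ⟨fun r => Fm (a / 2) (Bm (A r (τ s)) (A' r (τ s))) - 2 * τ s, _,
      (Fs s (τ s)).sub_const _, (d1 s (τ s)).trans (by
        obtain ⟨t, ht, h1⟩ := hμ s
        have h2 := min_le_min_right 3 ((Real.log_le_log_iff (abs_pos.2 (G s (τ s)).det)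
          (abs_pos.2 (G s t).det)).1 ((hτ s).2 t ht))
        have h3 := hq s _ (hτ s).1
        rw [pn3] at h3
        linarith), rfl, fun r h => m3 r (mτ h)⟩) S hS
  rw [intervalIntegral.integral_sub (ck.intervalIntegrable _ _) intervalIntegrable_const,
    intervalIntegral.integral_const, smul_eq_mul] at k
  have b1 := abs_le.1 (L1 S (τ S)).2.2.2.1
  have b2 := abs_le.1 (L1 0 (τ 0)).2.2.2.1
  have b3 := (hτ S).1.2
  have b4 := (hτ 0).1.1
  have e : 8 / a = 4 / a + 4 / a := by ring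
  linarith

end Pool.Agent.MP_3ee8cb_gt.CZO
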