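import Pool.Agent.MP_3ee8cb_gt.D3NP.Spec

/-! Continuous conjugacies: the differential inequality almost everywhere. Statements. -/

namespace Pool.Agent.MP_3ee8cb_gt.CZO

open Set MeasureTheory D3 D3NP
open CR (FdP)
open scoped RealInnerProductSpace ENNReal

noncomputable section

/-- A continuous homogeneous map that commutes with the flows. -/
structure C0F (m m' : MF) (φ : V × V → V × V) : Prop where
  cont : ContinuousOn φ {z | z.2 ≠ 0}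
  hom : ∀ (r : ℝ) x a, 0 < r → a ≠ 0 → φ (x, r • a) = ((φ (x, a)).1, r • (φ (x, a)).2)
  norm : ∀ z, z.2 ≠ 0 → ‖(φ z).2‖ = ‖z.2‖
  flow : ∀ t z, z.2 ≠ 0 → φ (m.Z t z) = m'.Z t (φ z)

/-- A unit vector where `φ` has a contact and symplectic derivative inside the diamond. -/
structure Gd (m m' : MF) (φ : V × V → V × V) (a : ℝ) (z : V × V) : Prop where
  unit : ‖z.2‖ = 1
  dif : DifferentiableAt ℝ φ z
  al : ∀ ξ, ⟪(φ z).2, m'.hor (φ z) (fderiv ℝ φ z ξ)⟫ = ⟪z.2, m.hor z ξ⟫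
  om : ∀ ξ η, ⟪m'.hor (φ z) (fderiv ℝ φ z ξ), m'.ver (φ z) (fderiv ℝ φ z η)⟫ -
      ⟪m'.ver (φ z) (fderiv ℝ φ z ξ), m'.hor (φ z) (fderiv ℝ φ z η)⟫ =
    ⟪m.hor z ξ, m.ver z η⟫ - ⟪m.ver z ξ, m.hor z η⟫
  lt : ∀ s t ξ, m.J z ξ s = 0 → ⟪z.2, m.ver z ξ⟫ = 0 → ξ ≠ 0 →
    a * ‖m'.J (φ z) (fderiv ℝ φ z ξ) t‖ < ‖m'.J' (φ z) (fderiv ℝ φ z ξ) t‖

/-- The fibre inequality at every point of differentiability. -/
def Dia (m' : MF) (φ : V × V → V × V) (a : ℝ) : Prop := ∀ w : V × V, ‖w.2‖ = 1 →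
  DifferentiableAt ℝ φ w → ∀ t e, ⟪w.2, e⟫ = 0 → e ≠ 0 →
    a * ‖m'.J (φ w) (fderiv ℝ φ w (0, e)) t‖ < ‖m'.J' (φ w) (fderiv ℝ φ w (0, e)) t‖

/-- The last field of `Gd` follows from it. -/
def SGD : Prop := ∀ (m m' : MF) (φ : V × V → V × V) (a : ℝ) (z : V × V), m.OK → m.Jac → m'.OK →
  C0F m m' φ → Dia m' φ a → ‖z.2‖ = 1 → DifferentiableAt ℝ φ z →
  ∀ s t ξ, m.J z ξ s = 0 → ⟪z.2, m.ver z ξ⟫ = 0 → ξ ≠ 0 →
    a * ‖m'.J (φ z) (fderiv ℝ φ z ξ) t‖ < ‖m'.J' (φ z) (fderiv ℝ φ z ξ) t‖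

/-- The focal times of a good vector are finite. -/
def SGROW : Prop := ∀ (m m' : MF) (φ : V × V → V × V) (a : ℝ) (z : V × V), m.OK → m.Jac →
  m'.OK → m'.Jac → C0F m m' φ → 0 < a → m'.Up (a ^ 2) → Gd m m' φ a z → ∃ T, ∀ t e,
    ⟪z.2, e⟫ = 0 → e ≠ 0 →
    (T ≤ t → 0 < ⟪m'.J (φ z) (fderiv ℝ φ z (0, e)) t, m'.J' (φ z) (fderiv ℝ φ z (0, e)) t⟫) ∧
    (t ≤ -T → ⟪m'.J (φ z) (fderiv ℝ φ z (0, e)) t, m'.J' (φ z) (fderiv ℝ φ z (0, e)) t⟫ < 0)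

/-- The weak fibre inequality over `x`. -/
def WF (m m' : MF) (φ : V × V → V × V) (a : ℝ) (x : V) : Prop := ∀ g : V → ℝ≥0∞, Measurable g →
  (∀ b, ‖b‖ = 1 → g b ≠ 0 →
    Gd m m' φ a (x, b) ∧ ∀ t, g b ≤ ENNReal.ofReal (Dt m' (fr φ x) 0 t b)) →
  ∫⁻ b : Metric.sphere (0 : V) 1, g b ∂(volume : Measure V).toSphere ≤
    (volume : Measure V).toSphere univ

/-- A focal point with unit Jacobian, where the Jacobian is least. -/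
def Foc (m' : MF) (φ : V × V → V × V) (x b : V) : Prop := ∃ τ, At m' (fr φ x) τ b = 0 ∧
  Dt m' (fr φ x) 0 τ b = 1 ∧ ∀ t, 1 ≤ Dt m' (fr φ x) 0 t b

/-- The equality case holds almost everywhere. -/
def SODE : Prop := ∀ (m m' : MF) (φ : V × V → V × V) (Γ Λ : Type) [Group Γ] [Group Λ]
  [MulAction Γ V] [MulAction Λ V] (ρ : Γ ≃* Λ) O O' (a : ℝ), m.OK → m.Jac → m'.OK → m'.Jac →
  C0F m m' φ → Act m Γ O → Act m' Λ O' → Eqv ρ O O' φ → FdP 3 Γ → 0 < a → m'.Up (a ^ 2) →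
  (∀ᵐ z : V × V, Gd m m' φ a (z.1, ‖z.2‖⁻¹ • z.2)) → (∀ᵐ x : V, WF m m' φ a x) →
  ∀ᵐ x : V, ∀ᵐ b : Metric.sphere (0 : V) 1 ∂(volume : Measure V).toSphere,
    Gd m m' φ a (x, b) ∧ Foc m' φ x b

end

end Pool.Agent.MP_3ee8cb_gt.CZO
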